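import Mathlib

/-! minimax joint spectral radii: definitions and general facts -/

set_option autoImplicit false

open Filter Topology

namespace Pool.Agent.X86.MJ

/-- Real `N × N` matrices. -/
abbrev Mat (N : ℕ) : Type := Matrix (Fin N) (Fin N) ℝ

/-- The product `A_n B_n ⋯ A_1 B_1`. -/
noncomputable def P {N : ℕ} : (n : ℕ) → (Fin n → Mat N) → (Fin n → Mat N) → Mat N
  | 0, _, _ => 1
  | n + 1, A, B => A (Fin.last n) * B (Fin.last n) *
      P n (fun i => A i.castSucc) (fun i => B i.castSucc)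

/-- The spectral radius of a real matrix (of its complex eigenvalues). -/
noncomputable def rho {N : ℕ} (X : Mat N) : ℝ :=
  (spectralRadius ℂ (X.map (algebraMap ℝ ℂ))).toReal

/-- The maximal absolute row sum, a norm on matrices. -/
noncomputable def nrm {N : ℕ} (X : Mat N) : ℝ := ⨆ i, ∑ j, |X i j|

/-- `max_A min_B F (A_n B_n ⋯ A_1 B_1)`. -/
noncomputable def maxMin {N : ℕ} (F : Mat N → ℝ) (𝒜 ℬ : Finset (Mat N)) (n : ℕ) : ℝ :=
  ⨆ a : Fin n → 𝒜, ⨅ b : Fin n → ℬ, F (P n (fun i => (a i : Mat N)) (fun i => (b i : Mat N)))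

/-- `min_B max_A F (A_n B_n ⋯ A_1 B_1)`. -/
noncomputable def minMax {N : ℕ} (F : Mat N → ℝ) (𝒜 ℬ : Finset (Mat N)) (n : ℕ) : ℝ :=
  ⨅ b : Fin n → ℬ, ⨆ a : Fin n → 𝒜, F (P n (fun i => (a i : Mat N)) (fun i => (b i : Mat N)))

section

variable {N : ℕ}

lemma P_add (m n : ℕ) (A B : Fin (m + n) → Mat N) : P (m + n) A B =
    P n (fun i => A (Fin.natAdd m i)) (fun i => B (Fin.natAdd m i)) *
      P m (fun i => A (Fin.castAdd n i)) (fun i => B (Fin.castAdd n i)) := by
  induction n with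
  | zero =>
    change P m A B = 1 * P m A B
    rw [one_mul]
  | succ n ih =>
    have h1 : P (m + (n + 1)) A B = A (Fin.last (m + n)) * B (Fin.last (m + n)) *
      P (m + n) (fun i => A i.castSucc) (fun i => B i.castSucc) := rfl
    rw [h1, ih]
    have h2 : P (n + 1) (fun i => A (Fin.natAdd m i)) (fun i => B (Fin.natAdd m i)) =
      A (Fin.last (m + n)) * B (Fin.last (m + n)) *
      P n (fun i => A (Fin.natAdd m i.castSucc)) (fun i => B (Fin.natAdd m i.castSucc)) := rfl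
    rw [h2]
    simp only [mul_assoc]
    rfl

lemma nrm_nonneg (X : Mat N) : 0 ≤ nrm X :=
  Real.iSup_nonneg fun _ => Finset.sum_nonneg fun _ _ => abs_nonneg _

lemma row_le (X : Mat N) (i : Fin N) : ∑ j, |X i j| ≤ nrm X :=
  le_ciSup (f := fun i => ∑ j, |X i j|) (Set.finite_range _).bddAbove i

lemma entry_le (X : Mat N) (i j : Fin N) : |X i j| ≤ nrm X :=
  (Finset.single_le_sum (f := fun j => |X i j|) (fun _ _ => abs_nonneg _)
    (Finset.mem_univ j)).trans (row_le X i)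

lemma nrm_mul_le (X Y : Mat N) : nrm (X * Y) ≤ nrm X * nrm Y := by
  rcases isEmpty_or_nonempty (Fin N) with h | h
  · have : nrm (X * Y) = 0 := by
      unfold nrm
      exact Real.iSup_of_isEmpty _
    rw [this]
    exact mul_nonneg (nrm_nonneg _) (nrm_nonneg _)
  · apply ciSup_le
    intro i
    calc ∑ j, |(X * Y) i j| ≤ ∑ j, ∑ k, |X i k| * |Y k j| := by
          apply Finset.sum_le_sum
          intro j _
          rw [Matrix.mul_apply]
          refine (Finset.abs_sum_le_sum_abs _ _).trans (le_of_eq ?_)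
          simp_rw [abs_mul]
      _ = ∑ k, |X i k| * ∑ j, |Y k j| := by
          rw [Finset.sum_comm]
          simp_rw [Finset.mul_sum]
      _ ≤ ∑ k, |X i k| * nrm Y :=
          Finset.sum_le_sum fun k _ => mul_le_mul_of_nonneg_left (row_le Y k) (abs_nonneg _)
      _ = (∑ k, |X i k|) * nrm Y := by rw [Finset.sum_mul]
      _ ≤ nrm X * nrm Y := mul_le_mul_of_nonneg_right (row_le X i) (nrm_nonneg _)

variable {𝒜 ℬ : Finset (Mat N)}

lemma maxMin_mul_le (hA : 𝒜.Nonempty) (hB : ℬ.Nonempty) (m n : ℕ) :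
    maxMin nrm 𝒜 ℬ (m + n) ≤ maxMin nrm 𝒜 ℬ m * maxMin nrm 𝒜 ℬ n := by
  have := hA.to_subtype
  have := hB.to_subtype
  apply ciSup_le
  intro a
  obtain ⟨b1, hb1⟩ := exists_eq_ciInf_of_finite (f := fun b : Fin m → ℬ =>
    nrm (P m (fun i => (a (Fin.castAdd n i) : Mat N)) (fun i => (b i : Mat N))))
  obtain ⟨b2, hb2⟩ := exists_eq_ciInf_of_finite (f := fun b : Fin n → ℬ =>
    nrm (P n (fun i => (a (Fin.natAdd m i) : Mat N)) (fun i => (b i : Mat N))))
  refine (ciInf_le (Set.finite_range _).bddBelow (Fin.append b1 b2)).trans ?_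
  rw [P_add]
  simp only [Fin.append_left, Fin.append_right]
  refine (nrm_mul_le _ _).trans ?_
  rw [mul_comm]
  apply mul_le_mul
  · rw [hb1]
    exact le_ciSup (f := fun a : Fin m → 𝒜 => ⨅ b : Fin m → ℬ,
      nrm (P m (fun i => (a i : Mat N)) (fun i => (b i : Mat N)))) (Set.finite_range _).bddAbove
      (fun i => a (Fin.castAdd n i))
  · rw [hb2]
    exact le_ciSup (f := fun a : Fin n → 𝒜 => ⨅ b : Fin n → ℬ,
      nrm (P n (fun i => (a i : Mat N)) (fun i => (b i : Mat N)))) (Set.finite_range _).bddAbove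
      (fun i => a (Fin.natAdd m i))
  · exact nrm_nonneg _
  · exact Real.iSup_nonneg fun _ => Real.iInf_nonneg fun _ => nrm_nonneg _

lemma minMax_mul_le (hA : 𝒜.Nonempty) (hB : ℬ.Nonempty) (m n : ℕ) :
    minMax nrm 𝒜 ℬ (m + n) ≤ minMax nrm 𝒜 ℬ m * minMax nrm 𝒜 ℬ n := by
  have := hA.to_subtype
  have := hB.to_subtype
  obtain ⟨b1, hb1⟩ := exists_eq_ciInf_of_finite (f := fun b : Fin m → ℬ =>
    ⨆ a : Fin m → 𝒜, nrm (P m (fun i => (a i : Mat N)) (fun i => (b i : Mat N))))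
  obtain ⟨b2, hb2⟩ := exists_eq_ciInf_of_finite (f := fun b : Fin n → ℬ =>
    ⨆ a : Fin n → 𝒜, nrm (P n (fun i => (a i : Mat N)) (fun i => (b i : Mat N))))
  have e1 : minMax nrm 𝒜 ℬ m = ⨆ a : Fin m → 𝒜,
    nrm (P m (fun i => (a i : Mat N)) (fun i => (b1 i : Mat N))) := hb1.symm
  have e2 : minMax nrm 𝒜 ℬ n = ⨆ a : Fin n → 𝒜,
    nrm (P n (fun i => (a i : Mat N)) (fun i => (b2 i : Mat N))) := hb2.symm
  refine (ciInf_le (Set.finite_range _).bddBelow (Fin.append b1 b2)).trans ?_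
  apply ciSup_le
  intro a
  rw [P_add]
  simp only [Fin.append_left, Fin.append_right]
  refine (nrm_mul_le _ _).trans ?_
  rw [mul_comm, e1, e2]
  apply mul_le_mul
  · exact le_ciSup (f := fun a : Fin m → 𝒜 =>
      nrm (P m (fun i => (a i : Mat N)) (fun i => (b1 i : Mat N)))) (Set.finite_range _).bddAbove
      (fun i => a (Fin.castAdd n i))
  · exact le_ciSup (f := fun a : Fin n → 𝒜 =>
      nrm (P n (fun i => (a i : Mat N)) (fun i => (b2 i : Mat N)))) (Set.finite_range _).bddAbove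
      (fun i => a (Fin.natAdd m i))
  · exact nrm_nonneg _
  · exact Real.iSup_nonneg fun _ => nrm_nonneg _

/-- a submultiplicative sequence of numbers `≥ 1` -/
lemma exists_lim {f : ℕ → ℝ} (h1 : ∀ n, 1 ≤ f n) (h2 : ∀ m n, f (m + n) ≤ f m * f n) :
    ∃ μ : ℝ, 1 ≤ μ ∧ Tendsto (fun n : ℕ => f n ^ (1 / (n : ℝ))) atTop (𝓝 μ) := by
  have hpos : ∀ n, 0 < f n := fun n => lt_of_lt_of_le one_pos (h1 n)
  have hs : Subadditive (fun n => Real.log (f n)) := by
    intro m n
    rw [← Real.log_mul (hpos m).ne' (hpos n).ne']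
    exact Real.log_le_log (hpos _) (h2 m n)
  have h0 : ∀ n : ℕ, 0 ≤ Real.log (f n) / n := fun n =>
    div_nonneg (Real.log_nonneg (h1 n)) (Nat.cast_nonneg _)
  have hb : BddBelow (Set.range fun n : ℕ => Real.log (f n) / n) :=
    ⟨0, by rintro _ ⟨n, rfl⟩; exact h0 n⟩
  have ht := hs.tendsto_lim hb
  refine ⟨Real.exp hs.lim, Real.one_le_exp (ge_of_tendsto' ht h0), ?_⟩
  have := (Real.continuous_exp.tendsto _).comp ht
  refine this.congr fun n => ?_
  simp only [Function.comp]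
  rw [Real.rpow_def_of_pos (hpos n)]
  congr 1
  ring

lemma rho_nonneg (X : Mat N) : 0 ≤ rho X := ENNReal.toReal_nonneg

lemma rho_of_nilpotent {X : Mat N} (h : IsNilpotent X) : rho X = 0 := by
  obtain ⟨k, hk⟩ := h
  have hY : (X.map (algebraMap ℝ ℂ)) ^ k = 0 := by
    have h1 : (X ^ k).map (algebraMap ℝ ℂ) = (X.map (algebraMap ℝ ℂ)) ^ k :=
      Matrix.map_pow (f := algebraMap ℝ ℂ) X k
    rw [← h1, hk]
    ext i j
    simp
  have h0 : spectralRadius ℂ (X.map (algebraMap ℝ ℂ)) = 0 := by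
    unfold spectralRadius
    simp only [ENNReal.iSup_eq_zero]
    intro z hz
    rcases isEmpty_or_nonempty (Fin N) with he | he
    · exfalso
      rw [spectrum.mem_iff] at hz
      exact hz (by
        have : Subsingleton (Matrix (Fin N) (Fin N) ℂ) := inferInstance
        exact isUnit_of_subsingleton _)
    · have h2 := spectrum.pow_mem_pow (X.map (algebraMap ℝ ℂ)) k hz
      rw [hY, spectrum.zero_eq, Set.mem_singleton_iff] at h2
      have h3 : z = 0 := by
        by_contra hne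
        exact pow_ne_zero k hne h2
      simp [h3]
  unfold rho
  rw [h0]
  rfl

end

end Pool.Agent.X86.MJ
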