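import Pool.Agent.X86.MJ.Gen
import Pool.Agent.H205R2.NR.SqFree

/-! square detecting matrices -/

set_option autoImplicit false

open Filter Topology Matrix

namespace Pool.Agent.X86.MJ

/-- the value of a word -/
def val (s : ℕ → Fin 16) : ℕ → ℕ
  | 0 => 0
  | e + 1 => 17 * val s e + ((s e : ℕ) + 1)

lemma val_inj : ∀ (e f : ℕ) (s t : ℕ → Fin 16), val s e = val t f →
    e = f ∧ ∀ k < e, s k = t k := by
  intro e
  induction e with
  | zero =>
    intro f s t h
    cases f with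
    | zero => exact ⟨rfl, fun k hk => absurd hk (Nat.not_lt_zero _)⟩
    | succ f => simp only [val] at h; omega
  | succ e ih =>
    intro f s t h
    cases f with
    | zero => simp only [val] at h; omega
    | succ f =>
      simp only [val] at h
      have h1 := (s e).2
      have h2 := (t f).2
      have h3 : val s e = val t f := by omega
      have h4 : (s e : ℕ) = (t f : ℕ) := by omega
      obtain ⟨h5, h6⟩ := ih f s t h3
      subst h5
      refine ⟨rfl, fun k hk => ?_⟩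
      rcases Nat.lt_succ_iff_lt_or_eq.mp hk with h7 | h7
      · exact h6 k h7
      · subst h7; exact Fin.ext h4

/-- the letters -/
noncomputable def Ad (d : Fin 16) : Mat 5 :=
  !![1, 0, 0, 0, 0; ((d : ℕ) : ℝ) + 1, 17, 0, 0, 0; 0, 0, 1, 0, 0; 0, 0, 0, 1, 0;
     0, 0, ((d : ℕ) : ℝ) + 1, 0, 17]

/-- the tick -/
noncomputable def G : Mat 5 :=
  !![0, 0, 0, 1, -1; 0, 0, 0, 0, 0; 1, 0, 0, 0, 0; 0, 1, 0, 0, 0; 0, 0, 0, 0, 0]

lemma Ad_mulVec (d : Fin 16) (p x q w z : ℝ) : Ad d *ᵥ ![p, x, q, w, z] =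
    ![p, (((d : ℕ) : ℝ) + 1) * p + 17 * x, q, w, (((d : ℕ) : ℝ) + 1) * q + 17 * z] := by
  ext i
  fin_cases i <;> simp [Ad, Matrix.mulVec, dotProduct, Fin.sum_univ_succ]

lemma G_mulVec (p x q w z : ℝ) : G *ᵥ ![p, x, q, w, z] = ![w - z, 0, p, x, 0] := by
  ext i
  fin_cases i <;> simp [G, Matrix.mulVec, dotProduct, Fin.sum_univ_succ]
  ring

/-- first kind of state -/
def St1 (u : ℕ → Fin 16) (m : ℕ) (v : Fin 5 → ℝ) : Prop :=
  ∃ (c : ℤ) (i : ℕ), c ≠ 0 ∧ i ≤ m ∧ (i = m → m = 0) ∧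
    v = ![(c : ℝ), c * val (fun k => u (i + k)) (m - i), 0, 0, 0]

/-- second kind of state -/
def St2 (u : ℕ → Fin 16) (m : ℕ) (v : Fin 5 → ℝ) : Prop :=
  ∃ (c : ℤ) (i j : ℕ), c ≠ 0 ∧ i ≤ j ∧ j < m ∧
    v = ![0, 0, (c : ℝ), c * val (fun k => u (i + k)) (j - i),
      c * val (fun k => u (j + k)) (m - j)]

lemma val_step (u : ℕ → Fin 16) {i m : ℕ} (h : i ≤ m) :
    val (fun k => u (i + k)) (m + 1 - i) =
      17 * val (fun k => u (i + k)) (m - i) + ((u m : ℕ) + 1) := by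
  have e : m + 1 - i = (m - i) + 1 := by omega
  rw [e]
  simp only [val]
  have e2 : i + (m - i) = m := by omega
  rw [e2]

lemma letter1 {u : ℕ → Fin 16} {m : ℕ} {v : Fin 5 → ℝ}
    (h : ∃ (c : ℤ) (i : ℕ), c ≠ 0 ∧ i ≤ m ∧
      v = ![(c : ℝ), c * val (fun k => u (i + k)) (m - i), 0, 0, 0]) :
    St1 u (m + 1) (Ad (u m) *ᵥ v) := by
  obtain ⟨c, i, hc, hi, rfl⟩ := h
  refine ⟨c, i, hc, by omega, fun h => by omega, ?_⟩
  rw [Ad_mulVec, val_step u hi]
  push_cast
  congr 1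
  congr 1
  · ring
  · congr 1
    congr 1
    ring_nf

lemma letter2 {u : ℕ → Fin 16} {m : ℕ} {v : Fin 5 → ℝ}
    (h : ∃ (c : ℤ) (i j : ℕ), c ≠ 0 ∧ i ≤ j ∧ j ≤ m ∧
      v = ![0, 0, (c : ℝ), c * val (fun k => u (i + k)) (j - i),
        c * val (fun k => u (j + k)) (m - j)]) :
    St2 u (m + 1) (Ad (u m) *ᵥ v) := by
  obtain ⟨c, i, j, hc, hi, hj, rfl⟩ := h
  refine ⟨c, i, j, hc, hi, by omega, ?_⟩
  rw [Ad_mulVec, val_step u hj]
  push_cast
  congr 1
  congr 1
  · ring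
  · congr 1
    congr 1
    congr 1
    ring

/-- one step of the dynamics -/
lemma step {u : ℕ → Fin 16} {R m : ℕ} (hR : ∀ i e, 0 < e → i + 2 * e ≤ R →
    ∃ j, j < e ∧ u (i + j) ≠ u (i + e + j)) (hm : m ≤ R) {v : Fin 5 → ℝ}
    (h : St1 u m v ∨ St2 u m v) {B : Mat 5} (hB : B = 1 ∨ B = G) :
    St1 u (m + 1) ((Ad (u m) * B) *ᵥ v) ∨ St2 u (m + 1) ((Ad (u m) * B) *ᵥ v) := by
  rw [← Matrix.mulVec_mulVec]
  rcases hB with rfl | rfl
  · rw [Matrix.one_mulVec]
    rcases h with h | h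
    · obtain ⟨c, i, h1, h2, _, h4⟩ := h
      exact Or.inl (letter1 ⟨c, i, h1, h2, h4⟩)
    · obtain ⟨c, i, j, h1, h2, h3, h4⟩ := h
      exact Or.inr (letter2 ⟨c, i, j, h1, h2, h3.le, h4⟩)
  · rcases h with h | h
    · obtain ⟨c, i, hc, hi, _, rfl⟩ := h
      right
      apply letter2
      refine ⟨c, i, m, hc, hi, le_rfl, ?_⟩
      rw [G_mulVec, Nat.sub_self]
      simp [val]
    · obtain ⟨c, i, j, hc, hi, hj, rfl⟩ := h
      left
      apply letter1
      refine ⟨c * ((val (fun k => u (i + k)) (j - i) : ℤ) - (val (fun k => u (j + k)) (m - j) : ℤ)),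
        m, ?_, le_rfl, ?_⟩
      · apply mul_ne_zero hc
        rw [sub_ne_zero]
        intro heq
        have heq' : val (fun k => u (i + k)) (j - i) = val (fun k => u (j + k)) (m - j) := by
          exact_mod_cast heq
        obtain ⟨h1, h2⟩ := val_inj _ _ _ _ heq'
        obtain ⟨k, hk, hne⟩ := hR i (j - i) (by omega) (by omega)
        apply hne
        have := h2 k hk
        have e : i + (j - i) = j := by omega
        rw [e]
        exact this
      · rw [G_mulVec, Nat.sub_self]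
        simp only [val]
        push_cast
        congr 1
        · ring
        · simp

/-- the vector after `m` steps -/
lemma orbit {u : ℕ → Fin 16} {R : ℕ} (hR : ∀ i e, 0 < e → i + 2 * e ≤ R →
    ∃ j, j < e ∧ u (i + j) ≠ u (i + e + j)) : ∀ m ≤ R, ∀ b : Fin m → Mat 5,
    (∀ i, b i = 1 ∨ b i = G) →
    St1 u m (P m (fun i => Ad (u i)) b *ᵥ ![1, 0, 0, 0, 0]) ∨
      St2 u m (P m (fun i => Ad (u i)) b *ᵥ ![1, 0, 0, 0, 0]) := by
  intro m
  induction m with
  | zero =>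
    intro _ b _
    left
    refine ⟨1, 0, one_ne_zero, le_rfl, fun _ => rfl, ?_⟩
    simp [P, val]
  | succ m ih =>
    intro hm b hb
    have h1 := ih (by omega) (fun i => b i.castSucc) (fun i => hb i.castSucc)
    have h2 := step hR (by omega) h1 (hb (Fin.last m))
    rw [Matrix.mulVec_mulVec] at h2
    exact h2

lemma col_zero (X : Mat 5) (i : Fin 5) : (X *ᵥ ![1, 0, 0, 0, 0]) i = X i 0 := by
  simp [Matrix.mulVec, dotProduct, Fin.sum_univ_succ]

/-- **the norm of the product stays large** -/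
lemma one_le_nrm {u : ℕ → Fin 16} {R : ℕ} (hR : ∀ i e, 0 < e → i + 2 * e ≤ R →
    ∃ j, j < e ∧ u (i + j) ≠ u (i + e + j)) (b : Fin R → Mat 5)
    (hb : ∀ i, b i = 1 ∨ b i = G) : 1 ≤ nrm (P R (fun i => Ad (u i)) b) := by
  have habs : ∀ c : ℤ, c ≠ 0 → (1:ℝ) ≤ |(c : ℝ)| := by
    intro c hc
    rw [← Int.cast_abs]
    exact_mod_cast Int.one_le_abs hc
  rcases orbit hR R le_rfl b hb with ⟨c, i, hc, _, _, hv⟩ | ⟨c, i, j, hc, _, _, hv⟩
  · have h1 := congrFun hv 0
    rw [col_zero] at h1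
    simp only [Matrix.cons_val_zero] at h1
    refine (habs c hc).trans ?_
    rw [← h1]
    exact entry_le _ _ _
  · have h1 := congrFun hv 2
    rw [col_zero] at h1
    have h2 : P R (fun i => Ad (u i)) b 2 0 = c := by rw [h1]; rfl
    refine (habs c hc).trans ?_
    rw [← h2]
    exact entry_le _ _ _

/-- products of letters -/
noncomputable def Mkv (K V : ℝ) : Mat 5 :=
  !![1, 0, 0, 0, 0; V, K, 0, 0, 0; 0, 0, 1, 0, 0; 0, 0, 0, 1, 0; 0, 0, V, 0, K]

lemma Ad_mul_Mkv (d : Fin 16) (K V : ℝ) :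
    Ad d * Mkv K V = Mkv (17 * K) (((d : ℕ) : ℝ) + 1 + 17 * V) := by
  ext i j
  fin_cases i <;> fin_cases j <;> simp [Ad, Mkv, Matrix.mul_apply, Fin.sum_univ_succ]

lemma Mkv_G_nil (K V : ℝ) : IsNilpotent (Mkv K V * G) := by
  refine ⟨4, ?_⟩
  have h1 : Mkv K V * G = !![0, 0, 0, 1, -1; 0, 0, 0, V, -V; 1, 0, 0, 0, 0; 0, 1, 0, 0, 0;
      V, 0, 0, 0, 0] := by
    ext i j
    fin_cases i <;> fin_cases j <;> simp [G, Mkv, Matrix.mul_apply, Fin.sum_univ_succ]
  have h2 : (Mkv K V * G) ^ 2 = !![-V, 1, 0, 0, 0; -V ^ 2, V, 0, 0, 0; 0, 0, 0, 1, -1;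
      0, 0, 0, V, -V; 0, 0, 0, V, -V] := by
    rw [pow_two, h1]
    ext i j
    fin_cases i <;> fin_cases j <;> simp [Matrix.mul_apply, Fin.sum_univ_succ] <;> ring
  have h3 : (Mkv K V * G) ^ 4 = (Mkv K V * G) ^ 2 * (Mkv K V * G) ^ 2 := by rw [← pow_add]
  rw [h3, h2]
  ext i j
  fin_cases i <;> fin_cases j <;> simp [Matrix.mul_apply, Fin.sum_univ_succ] <;> ring

/-- the tick pattern with a single tick -/
noncomputable def tick (n : ℕ) (i : Fin n) : Mat 5 := if (i : ℕ) = 0 then G else 1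

lemma P_tick (n : ℕ) (d : Fin (n + 1) → Fin 16) :
    ∃ K V, P (n + 1) (fun i => Ad (d i)) (tick (n + 1)) = Mkv K V * G := by
  induction n with
  | zero =>
    refine ⟨17, ((d 0 : ℕ) : ℝ) + 1, ?_⟩
    have : P (0 + 1) (fun i => Ad (d i)) (tick (0 + 1)) = Ad (d 0) * G * 1 := by
      simp [P, tick]
    rw [this, mul_one]
    rfl
  | succ n ih =>
    obtain ⟨K, V, h⟩ := ih (fun i => d i.castSucc)
    refine ⟨17 * K, (((d (Fin.last (n + 1)) : Fin 16) : ℕ) : ℝ) + 1 + 17 * V, ?_⟩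
    rw [← Ad_mul_Mkv (d (Fin.last (n + 1))) K V, mul_assoc, ← h]
    have h1 : P (n + 1 + 1) (fun i => Ad (d i)) (tick (n + 1 + 1)) =
      Ad (d (Fin.last (n + 1))) * tick (n + 1 + 1) (Fin.last (n + 1)) *
      P (n + 1) (fun i => Ad (d i.castSucc)) (fun i => tick (n + 1 + 1) i.castSucc) := rfl
    have h2 : tick (n + 1 + 1) (Fin.last (n + 1)) = 1 := by simp [tick]
    have h3 : (fun i : Fin (n + 1) => tick (n + 1 + 1) i.castSucc) = tick (n + 1) := by
      funext i; simp [tick]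
    rw [h1, h2, h3, mul_one]

/-- the two finite sets -/
noncomputable def SA : Finset (Mat 5) := by
  classical
  exact Finset.univ.image Ad

noncomputable def SB : Finset (Mat 5) := by
  classical
  exact {1, G}

lemma mem_SA (d : Fin 16) : Ad d ∈ SA := by
  classical
  exact Finset.mem_image_of_mem _ (Finset.mem_univ _)

lemma exists_of_SA {X : Mat 5} (h : X ∈ SA) : ∃ d, X = Ad d := by
  classical
  obtain ⟨d, _, hd⟩ := Finset.mem_image.mp h
  exact ⟨d, hd.symm⟩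

lemma mem_SB {X : Mat 5} : X ∈ SB ↔ X = 1 ∨ X = G := by
  classical
  unfold SB
  simp

lemma SA_nonempty : SA.Nonempty := ⟨_, mem_SA 0⟩
lemma SB_nonempty : SB.Nonempty := ⟨1, mem_SB.mpr (Or.inl rfl)⟩

lemma one_le_maxMin (n : ℕ) : 1 ≤ maxMin nrm SA SB n := by
  have := SA_nonempty.to_subtype
  have := SB_nonempty.to_subtype
  obtain ⟨u, hu⟩ := Pool.Agent.H205R2.NR.exists_sqfree n
  have h1 : 1 ≤ ⨅ b : Fin n → SB, nrm (P n (fun i => Ad (u i)) (fun i => (b i : Mat 5))) :=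
    le_ciInf fun b => one_le_nrm hu _ fun i => mem_SB.mp (b i).2
  exact h1.trans (le_ciSup (f := fun a : Fin n → SA => ⨅ b : Fin n → SB,
    nrm (P n (fun i => (a i : Mat 5)) (fun i => (b i : Mat 5)))) (Set.finite_range _).bddAbove
    (fun i => ⟨Ad (u i), mem_SA _⟩))

lemma one_le_minMax (n : ℕ) : 1 ≤ minMax nrm SA SB n := by
  have := SA_nonempty.to_subtype
  have := SB_nonempty.to_subtype
  obtain ⟨u, hu⟩ := Pool.Agent.H205R2.NR.exists_sqfree n
  apply le_ciInf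
  intro b
  exact (one_le_nrm hu _ fun i => mem_SB.mp (b i).2).trans (le_ciSup (f := fun a : Fin n → SA =>
    nrm (P n (fun i => (a i : Mat 5)) (fun i => (b i : Mat 5)))) (Set.finite_range _).bddAbove
    (fun i => ⟨Ad (u i), mem_SA _⟩))

lemma rho_tick (n : ℕ) (a : Fin (n + 1) → SA) :
    rho (P (n + 1) (fun i => (a i : Mat 5)) (tick (n + 1))) = 0 := by
  choose d hd using fun i => exists_of_SA (a i).2
  have h1 : (fun i => (a i : Mat 5)) = fun i => Ad (d i) := funext hd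
  obtain ⟨K, V, h⟩ := P_tick n d
  rw [h1, h]
  exact rho_of_nilpotent (Mkv_G_nil K V)

/-- the tick pattern as a tuple -/
noncomputable def tickB (n : ℕ) (i : Fin n) : SB :=
  ⟨tick n i, mem_SB.mpr (by unfold tick; split_ifs; exacts [Or.inr rfl, Or.inl rfl])⟩

lemma maxMin_rho (n : ℕ) : maxMin rho SA SB (n + 1) = 0 := by
  have := SA_nonempty.to_subtype
  have := SB_nonempty.to_subtype
  have h : ∀ a : Fin (n + 1) → SA, ⨅ b : Fin (n + 1) → SB,
      rho (P (n + 1) (fun i => (a i : Mat 5)) (fun i => (b i : Mat 5))) = 0 := by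
    intro a
    apply le_antisymm
    · exact (ciInf_le (Set.finite_range _).bddBelow (tickB (n + 1))).trans (rho_tick n a).le
    · exact Real.iInf_nonneg fun _ => rho_nonneg _
  unfold maxMin
  simp_rw [h]
  exact ciSup_const

lemma minMax_rho (n : ℕ) : minMax rho SA SB (n + 1) = 0 := by
  have := SA_nonempty.to_subtype
  have := SB_nonempty.to_subtype
  apply le_antisymm
  · refine (ciInf_le (Set.finite_range _).bddBelow (tickB (n + 1))).trans ?_
    exact ciSup_le fun a => (rho_tick n a).le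
  · exact Real.iInf_nonneg fun _ => Real.iSup_nonneg fun _ => rho_nonneg _

end Pool.Agent.X86.MJ
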